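import Mathlib

/-!
Suitable arrays, the quantity `σ(t, N)`, and multicolour Ramsey numbers.
-/

namespace Pool.Agent.MP_cb8ad4_co

/-- Row `r` of the array lists the symbols `A r 0, A r 1, …`, so `(A r).symm a` is the position
of the symbol `a` in row `r`.  The array is `(N, v, t)`-suitable if every symbol `a` occurs to the
left of all elements of any set `S` of `t - 1` other symbols in some row. -/
def IsSuitable (N v t : ℕ) (A : Fin N → Equiv.Perm (Fin v)) : Prop :=
  ∀ (a : Fin v) (S : Finset (Fin v)), a ∉ S → S.card = t - 1 →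
    ∃ r : Fin N, ∀ b ∈ S, (A r).symm a < (A r).symm b

/-- `σ(t, N) = x`: the largest `v` for which an `(N, v, t)`-suitable array exists is `N + x`. -/
def SigmaEq (t N x : ℕ) : Prop :=
  IsGreatest {v : ℕ | ∃ A : Fin N → Equiv.Perm (Fin v), IsSuitable N v t A} (N + x)

/-- The multicolour Ramsey number with colour set `C` and clique sizes `m i` (`i ∈ C`): the least
`n` such that every colouring of the pairs from `n` points with colours in `C` has, for some
colour `i`, a set of `m i` points all of whose pairs have colour `i`. -/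
noncomputable def ramsey {ι : Type} (C : Finset ι) (m : ι → ℕ) : ℕ :=
  sInf {n : ℕ | ∀ c : Sym2 (Fin n) → ι, (∀ p, c p ∈ C) →
    ∃ i ∈ C, ∃ U : Finset (Fin n), U.card = m i ∧ ∀ x ∈ U, ∀ y ∈ U, x ≠ y → c s(x, y) = i}

/-- The numbers `k - 2 + ∑_{T} (R(e_i + 1 : i ∈ T) - 1)`, the sum being over all three-element
sets `T` of indices, where `e_1, …, e_k` are positive integers with sum `ℓ + 4` and
`3 ≤ k ≤ ℓ + 3`. -/
def ramseyValues (ℓ : ℕ) : Set ℕ :=
  {n : ℕ | ∃ (k : ℕ) (e : Fin k → ℕ), 3 ≤ k ∧ k ≤ ℓ + 3 ∧ (∀ i, 1 ≤ e i) ∧ ∑ i, e i = ℓ + 4 ∧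
    n = k - 2 + ∑ T ∈ (Finset.univ : Finset (Fin k)).powersetCard 3,
      (ramsey T (fun i => e i + 1) - 1)}

end Pool.Agent.MP_cb8ad4_co
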